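import Pool.Agent.helper12.PFS.Spec

/-! Row pfs:FA1 (MP_16a903_co). -/

set_option autoImplicit false

namespace Pool.Agent.PFS

theorem FA1_tl (p : ℕ) [Fact p.Prime] (V : Type) [AddCommGroup V] [Module (ZMod p) V] (a : (ZMod p)ˣ)
    (s' : V) (s1 : ZMod p) :
    tl (af a s' : V ≃ V) a (fun _ => s1) = (af a (s', s1) : V × ZMod p ≃ V × ZMod p) := by
  apply Equiv.ext
  rintro ⟨x, u⟩
  rfl

theorem FA1_gd {X : Type} {τ : X → X} {T T' : X ≃ X} (hT : T = T') (h : Gd τ T) : Gd τ T' := by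
  rw [← hT]
  exact h

theorem FA1_neg (p : ℕ) [hp : Fact p.Prime] (hp2 : p ≠ 2) : Inv (0 : ZMod p) (fun u : ZMod p => -u) where
  inv x := neg_neg x
  fix x := by
    rw [ZMod.neg_eq_self_iff]
    constructor
    · rintro (h | h)
      · exact h
      · exfalso
        have h2 : 2 ∣ p := ⟨_, h.symm⟩
        exact hp2 ((Nat.prime_dvd_prime_iff_eq Nat.prime_two hp.out).1 h2).symm
    · intro h
      exact Or.inl h

theorem FA1_B (h4 : NEG_stmt) (p : ℕ) [hp : Fact p.Prime] (hp2 : p ≠ 2) (a : (ZMod p)ˣ) :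
    p - 1 ≤ Nat.card {q : Unit × ZMod p // Gd (fun u : ZMod p => -u) (af a q.2)} := by
  classical
  have h1 : Nat.card {z : ZMod p // z ≠ 0} = p - 1 := by
    rw [Nat.card_eq_fintype_card, Fintype.card_subtype_compl, Fintype.card_subtype_eq, ZMod.card]
  rw [← h1]
  apply Nat.card_le_card_of_injective
    (fun z : {z : ZMod p // z ≠ 0} =>
      (⟨((), z.1), h4 p a z.1 hp2 z.2⟩ : {q : Unit × ZMod p // Gd (fun u : ZMod p => -u) (af a q.2)}))
  intro z z' h
  have h2 := congrArg (fun q => q.1.2) h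
  exact Subtype.ext h2

theorem FA1_fixfree (p : ℕ) [Fact p.Prime] (V : Type) [Finite V] [AddCommGroup V] [Module (ZMod p) V]
    (hV : 1 < Nat.card V) (σ : V → V) (hσ : ∀ x, σ (σ x) = x) (a : (ZMod p)ˣ) (s' : V)
    (hg : Gd σ (af a s')) (ha : a = 1) (x : V) : (af a s' : V ≃ V) x ≠ x := by
  intro h
  subst ha
  have h1 : s' = 0 := by
    have h2 : (1 : (ZMod p)ˣ) • x + s' = x := h
    rw [one_smul] at h2
    exact left_eq_add.1 h2.symm
  subst h1
  have hid : ∀ y : V, rho σ (af (1 : (ZMod p)ˣ) (0 : V)) y = y := by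
    intro y
    show σ ((1 : (ZMod p)ˣ) • (σ ((1 : (ZMod p)ˣ)⁻¹ • (y - 0))) + 0) = y
    rw [inv_one, one_smul, one_smul, sub_zero, add_zero, hσ]
  have hit : ∀ (n : ℕ) (y : V), (rho σ (af (1 : (ZMod p)ˣ) (0 : V)))^[n] y = y := by
    intro n y
    induction n with
    | zero => rfl
    | succ n ih => rw [Function.iterate_succ_apply, hid, ih]
  have hsub : Subsingleton V := by
    refine ⟨fun y z => ?_⟩
    obtain ⟨n, hn⟩ := hg y z
    rw [hit] at hn
    exact hn
  have : Nat.card V ≤ 1 := Finite.card_le_one_iff_subsingleton.2 hsub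
  omega

theorem FA1 (h1 : LC_stmt) (h2 : ST1_stmt) (h3 : NSC_stmt) (h4 : NEG_stmt) (h5 : REP_stmt) :
    FA1_stmt := by
  intro p hp V hVf _ _ k hp2 hV hF
  classical
  obtain ⟨Ω, hΩf, hΩn, σ, hσ, hcount⟩ := hF
  choose r hr using fun ω => h5 V 0 (σ ω) (hσ ω).inv
  letI : Fintype V := Fintype.ofFinite V
  have : Finite (NS p) := inferInstanceAs (Finite {a : ZMod p // ¬ IsSquare a})
  have hm : 2 * Nat.card (NS p) = p - 1 := h3 p hp2
  have hp3 : 3 ≤ p := by
    have := hp.out.two_le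
    omega
  have hm0 : 0 < Nat.card (NS p) := by omega
  have : Nonempty (NS p) := (Nat.card_pos_iff.1 hm0).1
  have hnz : ∀ s : NS p, s.val ≠ 0 := by
    intro s hs
    apply s.2
    have : s.1 = 0 := hs
    rw [this]
    exact IsSquare.zero
  refine ⟨Ω × (V → NS p) × (V → ZMod p), inferInstance, inferInstance,
    fun θ => lft (0 : V) (σ θ.1) (r θ.1) (fun u : ZMod p => -u) (fun x => (θ.2.1 x).val) θ.2.2, ?_, ?_⟩
  · intro θ
    exact h2 p V (σ θ.1) (r θ.1) _ θ.2.2 hp2 (hσ θ.1) (hr θ.1) (fun x => (θ.2.1 x).2)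
  · intro a
    set m := Nat.card (NS p) with hmdef
    set v := Fintype.card V with hvdef
    -- the fibres
    let Fb : {q : Ω × V // Gd (σ q.1) (af a q.2)} → ZMod p → Type := fun q s1 =>
      {x : Unit × (V → NS p) × (V → ZMod p) //
        Gd (lft (0 : V) (σ q.1.1) (r q.1.1) (fun u : ZMod p => -u) (fun y => (x.2.1 y).val) x.2.2)
          (tl (af a q.1.2) a (fun _ => s1))}
    have hFb : ∀ q s1, (p - 3) * (m * p) ^ v ≤ p * Nat.card (Fb q s1) := by
      intro q s1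
      have h := h1 V (ZMod p) (ZMod p) Unit (NS p) NS.val 0 (σ q.1.1) (r q.1.1) (af a q.1.2) a
        (fun _ => s1) (fun _ u => -u) (p - 1) (fun x y hxy => Subtype.ext hxy) hnz (hσ q.1.1).inv
        (hr q.1.1) q.2 (by rw [← Nat.card_eq_fintype_card]; exact hV)
        (fun ha x => FA1_fixfree p V hV (σ q.1.1) (hσ q.1.1).inv.inv a q.1.2 q.2 ha x)
        (fun _ => FA1_neg p hp2) (fun a' => FA1_B h4 p hp2 a')
      rw [Nat.card_zmod] at h
      have h' : (m - 1) * (p - 1) * (m * p) ^ v ≤ m * p * Nat.card (Fb q s1) := h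
      have e : (m - 1) * (p - 1) = m * (p - 3) := by
        obtain ⟨m', hm'⟩ : ∃ m', m = m' + 1 := ⟨m - 1, by omega⟩
        have e1 : p - 3 = 2 * m' := by omega
        have e2 : p - 1 = 2 * (m' + 1) := by omega
        rw [e1, e2, hm', Nat.add_sub_cancel]
        ring
      rw [e, mul_assoc, mul_assoc] at h'
      exact Nat.le_of_mul_le_mul_left h' hm0
    -- the injection
    let φ : (Σ q : {q : Ω × V // Gd (σ q.1) (af a q.2)}, Σ s1 : ZMod p, Fb q s1) →
        {q : (Ω × (V → NS p) × (V → ZMod p)) × (V × ZMod p) //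
          Gd (lft (0 : V) (σ q.1.1) (r q.1.1) (fun u : ZMod p => -u) (fun x => (q.1.2.1 x).val) q.1.2.2)
            (af a q.2)} := fun y =>
      ⟨((y.1.1.1, y.2.2.1.2.1, y.2.2.1.2.2), (y.1.1.2, y.2.1)),
        FA1_gd (FA1_tl p V a y.1.1.2 y.2.1) y.2.2.2⟩
    have hφ : Function.Injective φ := by
      rintro ⟨⟨⟨ω, s⟩, hq⟩, ⟨s1, ⟨⟨u1, l1, c1⟩, hx⟩⟩⟩ ⟨⟨⟨ω', s'⟩, hq'⟩, ⟨s1', ⟨⟨u1', l1', c1'⟩, hx'⟩⟩⟩ h
      have h0 := congrArg Subtype.val h
      simp only [φ, Prod.mk.injEq] at h0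
      obtain ⟨⟨rfl, rfl, rfl⟩, rfl, rfl⟩ := h0
      rfl
    have hle := Nat.card_le_card_of_injective φ hφ
    letI : Fintype {q : Ω × V // Gd (σ q.1) (af a q.2)} := Fintype.ofFinite _
    have : ∀ q s1, Finite (Fb q s1) := fun q s1 => Subtype.finite
    rw [Nat.card_sigma] at hle
    refine le_trans ?_ hle
    have hin : ∀ q : {q : Ω × V // Gd (σ q.1) (af a q.2)},
        (p - 3) * (m * p) ^ v ≤ Nat.card (Σ s1 : ZMod p, Fb q s1) := by
      intro q
      rw [Nat.card_sigma]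
      have h := Finset.sum_le_sum fun (s1 : ZMod p) (_ : s1 ∈ Finset.univ) => hFb q s1
      rw [Finset.sum_const, Finset.card_univ, ZMod.card, smul_eq_mul, ← Finset.mul_sum] at h
      exact Nat.le_of_mul_le_mul_left h (by omega)
    have hfin := Finset.sum_le_sum fun (q : {q : Ω × V // Gd (σ q.1) (af a q.2)})
      (_ : q ∈ Finset.univ) => hin q
    refine le_trans ?_ hfin
    rw [Finset.sum_const, Finset.card_univ, ← Nat.card_eq_fintype_card, smul_eq_mul]
    have hc := Nat.mul_le_mul_right ((p - 3) * (m * p) ^ v) (hcount a)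
    refine le_trans (le_of_eq ?_) hc
    have hcard : Nat.card (Ω × (V → NS p) × (V → ZMod p)) = Nat.card Ω * (m * p) ^ v := by
      rw [Nat.card_prod, Nat.card_prod, Nat.card_fun, Nat.card_fun, Nat.card_zmod, mul_pow,
        Nat.card_eq_fintype_card (α := V)]
    rw [hcard, pow_succ]
    ring

end Pool.Agent.PFS
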